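import Mathlib

set_option autoImplicit false

namespace Pool.Agent.Results.MP_104382_al.NotFParadoxical

open Matrix

/-- The open unit square `Q = (0,1) × (0,1)`. -/
def Q : Set (Fin 2 → ℝ) := {v | ∀ k, 0 < v k ∧ v k < 1}

/-- `E` is `H`-paradoxical, for a subgroup `H` of `SL₂(ℝ)` acting linearly on the plane. -/
def Paradoxical (H : Subgroup (Matrix.SpecialLinearGroup (Fin 2) ℝ)) (E : Set (Fin 2 → ℝ)) :
    Prop :=
  ∃ (n m : ℕ) (A : Fin n → Set (Fin 2 → ℝ)) (B : Fin m → Set (Fin 2 → ℝ))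
    (g : Fin n → Matrix.SpecialLinearGroup (Fin 2) ℝ)
    (h : Fin m → Matrix.SpecialLinearGroup (Fin 2) ℝ),
    (∀ i, g i ∈ H) ∧ (∀ j, h j ∈ H) ∧
    (∀ i, A i ⊆ E) ∧ (∀ j, B j ⊆ E) ∧
    Pairwise (fun i i' => Disjoint (A i) (A i')) ∧
    Pairwise (fun j j' => Disjoint (B j) (B j')) ∧
    (∀ i j, Disjoint (A i) (B j)) ∧
    (⋃ i, (fun v => Matrix.mulVec ((g i : Matrix (Fin 2) (Fin 2) ℝ)) v) '' A i) = E ∧
    (⋃ j, (fun v => Matrix.mulVec ((h j : Matrix (Fin 2) (Fin 2) ℝ)) v) '' B j) = E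

/-- The matrix `a = (1 2; 0 1)`. -/
def a : Matrix.SpecialLinearGroup (Fin 2) ℝ := ⟨!![1, 2; 0, 1], by simp⟩

/-- The matrix `b = (1 0; 2 1)`. -/
def b : Matrix.SpecialLinearGroup (Fin 2) ℝ := ⟨!![1, 0; 2, 1], by simp⟩

/-- The group `F` generated by `a` and `b`. -/
def F : Subgroup (Matrix.SpecialLinearGroup (Fin 2) ℝ) := Subgroup.closure {a, b}

/-- The group `SL₂(ℤ)`, as a subgroup of `SL₂(ℝ)`. -/
def SL2Z : Subgroup (Matrix.SpecialLinearGroup (Fin 2) ℝ) :=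
  (Matrix.SpecialLinearGroup.map (n := Fin 2) (Int.castRingHom ℝ)).range

theorem F_le : F ≤ SL2Z := by
  rw [F, Subgroup.closure_le]
  intro x hx
  have h1 : (!![1, 2; 0, 1] : Matrix (Fin 2) (Fin 2) ℤ).det = 1 := by simp
  have h2 : (!![1, 0; 2, 1] : Matrix (Fin 2) (Fin 2) ℤ).det = 1 := by simp
  let a' : Matrix.SpecialLinearGroup (Fin 2) ℤ := ⟨!![1, 2; 0, 1], h1⟩
  let b' : Matrix.SpecialLinearGroup (Fin 2) ℤ := ⟨!![1, 0; 2, 1], h2⟩
  rcases hx with rfl | rfl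
  · refine ⟨a', ?_⟩
    apply Subtype.ext
    apply Matrix.ext
    intro i j
    rw [Matrix.SpecialLinearGroup.map_apply_coe]
    fin_cases i <;> fin_cases j <;> simp [a, a']
  · refine ⟨b', ?_⟩
    apply Subtype.ext
    apply Matrix.ext
    intro i j
    rw [Matrix.SpecialLinearGroup.map_apply_coe]
    fin_cases i <;> fin_cases j <;> simp [b, b']

/-- An element of `SL₂(ℤ)` which maps a point of `Q` to the centre fixes the centre. -/
theorem eq_centre (g : Matrix.SpecialLinearGroup (Fin 2) ℝ) (hg : g ∈ SL2Z) (v : Fin 2 → ℝ)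
    (hv : v ∈ Q) (h : (g : Matrix (Fin 2) (Fin 2) ℝ).mulVec v = fun _ => 1 / 2) :
    v = fun _ => 1 / 2 := by
  obtain ⟨z, hz⟩ := hg
  have h1 : v = (g⁻¹).1.mulVec (fun _ => 1 / 2) := by
    rw [← h, Matrix.mulVec_mulVec, ← Matrix.SpecialLinearGroup.coe_mul, inv_mul_cancel]
    simp
  rw [← hz, ← map_inv] at h1
  have h2 : ∀ k, ∃ c : ℤ, 2 * v k = c := by
    intro k
    refine ⟨(z⁻¹).1 k 0 + (z⁻¹).1 k 1, ?_⟩
    have h3 := congrFun h1 k
    rw [h3]
    simp only [Matrix.mulVec, dotProduct, Fin.sum_univ_two,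
      Matrix.SpecialLinearGroup.map_apply_coe, RingHom.mapMatrix_apply, Matrix.map_apply,
      Int.coe_castRingHom]
    push_cast
    ring
  funext k
  obtain ⟨c, hc⟩ := h2 k
  obtain ⟨h4, h5⟩ := hv k
  have h6 : (0 : ℝ) < c := by linarith
  have h7 : (c : ℝ) < 2 := by linarith
  have h8 : 0 < c := by exact_mod_cast h6
  have h9 : c < 2 := by exact_mod_cast h7
  have h10 : c = 1 := by omega
  rw [h10] at hc
  push_cast at hc
  linarith

/-- The open unit square is not `F`-paradoxical. -/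
theorem result : ¬ Paradoxical F Q := by
  rintro ⟨n, m, A, B, g, h, hg, hh, hA, hB, -, -, hd, hgA, hhB⟩
  have hp : (fun _ => 1 / 2 : Fin 2 → ℝ) ∈ Q := by
    intro k
    constructor <;> norm_num
  have h1 := hp
  rw [← hgA, Set.mem_iUnion] at h1
  obtain ⟨i, u, hu, hu2⟩ := h1
  have h2 := hp
  rw [← hhB, Set.mem_iUnion] at h2
  obtain ⟨j, w, hw, hw2⟩ := h2
  have e1 := eq_centre (g i) (F_le (hg i)) u (hA i hu) hu2
  have e2 := eq_centre (h j) (F_le (hh j)) w (hB j hw) hw2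
  subst e1 e2
  exact Set.disjoint_left.1 (hd i j) hu hw

end Pool.Agent.Results.MP_104382_al.NotFParadoxical
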